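import Pool.Agent.Helper94.PQ.Stmts

set_option autoImplicit false

namespace Pool.Agent.Helper2.PQM

open PQ Pool.Agent.Helper13.Swan

section

variable {Ω P : Type} [Field Ω] [Group P] [MulSemiringAction P Ω] [Fintype P] [FaithfulSMul P Ω]
  {w : Valuation Ω (WithZero (Multiplicative ℤ))} {π : Ω}

omit [Fintype P] [FaithfulSMul P Ω] in
theorem val_ratio (hB : Base P w π) (g : P) : w (g • π / π) = 1 := by
  rw [map_div₀, hB.inv]
  exact div_self ((Valuation.ne_zero_iff w).2 hB.pi_ne)

omit [Fintype P] [FaithfulSMul P Ω] in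
theorem mem_Rk_iff (hB : Base P w π) (k : ℕ) (g : P) :
    g ∈ Rk hB k ↔ w (g • π / π - 1) ≤ ex k := by
  rw [mem_Rk]
  have e1 : g • π / π - 1 = (g • π - π) / π := by
    rw [sub_div, div_self hB.pi_ne]
  have h1 : ex ((k : ℤ) + 1) = ex k * ex 1 := ex_add _ _
  rw [e1, map_div₀, hB.unif, div_le_iff₀ (ex_pos 1), h1]

/-- displacement of integral elements by elements of `Rk i` -/
theorem disp (hB : Base P w π) {i : ℕ} {g : P} (hg : g ∈ Rk hB i) {x : Ω} (hx : w x ≤ 1) :
    w (g • x - x) ≤ ex (i + 1) := by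
  have h1 := hB.val_smul_sub_le (⊥ : Subgroup P) g (c := x) (by
    intro σ hσ
    rw [Subgroup.mem_bot] at hσ
    rw [hσ, one_smul]) hx
  have h2 : nm (⊥ : Subgroup P) π = π := by
    rw [nm_def, Fintype.prod_unique]
    have h3 : ((default : (⊥ : Subgroup P)) : P) = 1 := (Subgroup.mem_bot).1 (Subtype.prop _)
    rw [h3, one_smul]
  rw [h2] at h1
  exact h1.trans hg

theorem val_mul_sub_mul {δ : WithZero (Multiplicative ℤ)} {x y x' y' : Ω}
    (hx : w x ≤ 1) (hy' : w y' ≤ 1) (h1 : w (x - x') ≤ δ) (h2 : w (y - y') ≤ δ) :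
    w (x * y - x' * y') ≤ δ := by
  have e1 : x * y - x' * y' = x * (y - y') + (x - x') * y' := by ring
  rw [e1]
  apply w.map_add_le
  · rw [map_mul]
    exact (mul_le_of_le_one_left' hx).trans h2
  · rw [map_mul]
    exact (mul_le_of_le_one_right' hy').trans h1

/-- the `n`-th power of an element of `Rk i` -/
theorem pow_ratio (hB : Base P w π) {i : ℕ} {g : P} (hg : g ∈ Rk hB i) (n : ℕ) :
    w (g ^ n • π / π - (g • π / π) ^ n) ≤ ex (i + 1) := by
  induction n with
  | zero =>
    rw [pow_zero, one_smul, div_self hB.pi_ne, pow_zero, sub_self, map_zero]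
    exact zero_le
  | succ n ih =>
    have e1 : g ^ (n + 1) • π / π = (g ^ n • (g • π / π)) * (g ^ n • π / π) := by
      rw [pow_succ, mul_smul, smul_div₀']
      have h0 : g ^ n • π ≠ 0 := by
        rw [smul_ne_zero_iff_ne]
        exact hB.pi_ne
      field_simp
    have e2 : (g • π / π) ^ (n + 1) = (g • π / π) * (g • π / π) ^ n := by ring
    rw [e1, e2]
    apply val_mul_sub_mul
    · rw [hB.inv, val_ratio hB]
    · rw [map_pow, val_ratio hB, one_pow]
    · exact disp hB ((Rk hB i).pow_mem hg n) (val_ratio hB g).le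
    · exact ih

/-- a power of an element near one -/
theorem val_pow_sub_one_p {p : ℕ} (hp : p.Prime) (hwp : w (p : Ω) < 1) {i : ℕ} (hi : 1 ≤ i)
    {u : Ω} (hu : w (u - 1) ≤ ex i) : w (u ^ p - 1) ≤ ex (i + 1) := by
  set a := u - 1 with ha
  have hu' : u = a + 1 := by rw [ha]; ring
  have ha1 : w a ≤ 1 := hu.trans (by rw [← ex_zero, ex_le_ex]; omega)
  -- binomial theorem
  have hexp : u ^ p - 1 = ∑ k ∈ Finset.Ico 1 (p + 1), a ^ k * (p.choose k : Ω) := by
    rw [hu', add_pow]
    simp only [one_pow, mul_one]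
    rw [Finset.range_eq_Ico, Finset.sum_eq_sum_Ico_succ_bot (by omega)]
    simp
  rw [hexp]
  apply w.map_sum_le
  intro k hk
  rw [Finset.mem_Ico] at hk
  rw [map_mul, map_pow]
  by_cases hkp : k = p
  · subst hkp
    rw [Nat.choose_self, Nat.cast_one, map_one, mul_one]
    calc w a ^ k ≤ (ex i) ^ k := pow_le_pow_left' hu k
      _ = ex (k * i) := ex_pow _ _
      _ ≤ ex (i + 1) := by
        rw [ex_le_ex]
        have h2 : 2 ≤ k := hp.two_le
        have : (i : ℤ) + 1 ≤ k * i := by
          have h3 : (2 : ℤ) ≤ k := by exact_mod_cast h2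
          have h4 : (1 : ℤ) ≤ i := by exact_mod_cast hi
          nlinarith
        exact this
  · have hdvd : p ∣ p.choose k := hp.dvd_choose_self (by omega) (by omega)
    obtain ⟨c, hc⟩ := hdvd
    have h1 : w ((p.choose k : ℕ) : Ω) ≤ ex 1 := by
      rw [hc]
      push_cast
      rw [map_mul]
      have h2 : w (c : Ω) ≤ 1 := by
        have : (c : Ω) ∈ w.integer := natCast_mem _ _
        exact this
      exact (mul_le_of_le_one_right' h2).trans (lt_one_iff.1 hwp)
    have h3 : w a ^ k ≤ ex i := by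
      calc w a ^ k ≤ w a ^ 1 := pow_le_pow_right_of_le_one' ha1 hk.1
        _ = w a := pow_one _
        _ ≤ ex i := hu
    rw [ex_add]
    exact mul_le_mul' h3 h1

/-- the `p`-th power of an element of `Rk i`, `i ≥ 1` -/
theorem pow_mem_Rk (hB : Base P w π) {p : ℕ} (hp : p.Prime) (hwp : w (p : Ω) < 1) {i : ℕ}
    (hi : 1 ≤ i) {g : P} (hg : g ∈ Rk hB i) : g ^ p ∈ Rk hB (i + 1) := by
  rw [mem_Rk_iff]
  push_cast
  have h1 := pow_ratio hB hg p
  have h2 := val_pow_sub_one_p (w := w) hp hwp hi ((mem_Rk_iff hB i g).1 hg)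
  have e1 : g ^ p • π / π - 1 = (g ^ p • π / π - (g • π / π) ^ p) + ((g • π / π) ^ p - 1) := by
    ring
  rw [e1]
  exact w.map_add_le h1 h2

theorem isPGroup_Rk (hB : Base P w π) {p : ℕ} (hp : p.Prime) (hwp : w (p : Ω) < 1) :
    IsPGroup p (Rk hB 1) := by
  obtain ⟨L, hL⟩ := hB.exists_Rk_bot
  intro g
  refine ⟨L, ?_⟩
  have h : ∀ n : ℕ, (g : P) ^ p ^ n ∈ Rk hB (1 + n) := by
    intro n
    induction n with
    | zero => simp
    | succ n ih =>
      rw [pow_succ, pow_mul]
      have := pow_mem_Rk hB hp hwp (by omega) ih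
      rwa [add_assoc] at this
  have h1 := Rk_antitone hB (by omega : L ≤ 1 + L) (h L)
  rw [hL, Subgroup.mem_bot] at h1
  apply Subtype.ext
  rw [SubmonoidClass.coe_pow, h1]
  rfl

/-- the ideal of the elements of valuation less than one -/
def mI (w : Valuation Ω (WithZero (Multiplicative ℤ))) : Ideal w.integer where
  carrier := {x | w (x : Ω) < 1}
  zero_mem' := by simp
  add_mem' := by
    intro a b ha hb
    simp only [Set.mem_ofPred_eq] at ha hb ⊢
    exact w.map_add_lt ha hb
  smul_mem' := by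
    intro c x hx
    simp only [Set.mem_ofPred_eq] at hx ⊢
    rw [smul_eq_mul]
    push_cast
    rw [map_mul]
    exact (mul_le_of_le_one_left' c.2).trans_lt hx

theorem mem_mI (x : w.integer) : x ∈ mI w ↔ w (x : Ω) < 1 := Iff.rfl

theorem mI_prime : (mI w).IsPrime := by
  refine ⟨?_, ?_⟩
  · rw [Ideal.ne_top_iff_one, mem_mI]
    simp
  · intro x y hxy
    rw [mem_mI] at hxy
    rw [mem_mI, mem_mI]
    by_contra hcon
    push Not at hcon
    have h1 : w (x : Ω) = 1 := le_antisymm x.2 hcon.1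
    have h2 : w (y : Ω) = 1 := le_antisymm y.2 hcon.2
    push_cast at hxy
    rw [map_mul, h1, h2, mul_one] at hxy
    exact lt_irrefl _ hxy

/-- the ratio `g π / π` as an integral element -/
def rt (hB : Base P w π) (g : P) : w.integer := ⟨g • π / π, (val_ratio hB g).le⟩

/-- the tame character -/
def th (hB : Base P w π) : P →* (w.integer ⧸ mI w) where
  toFun g := Ideal.Quotient.mk _ (rt hB g)
  map_one' := by
    have : rt hB 1 = 1 := by
      apply Subtype.ext
      show (1 : P) • π / π = 1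
      rw [one_smul, div_self hB.pi_ne]
    rw [this, map_one]
  map_mul' g h := by
    rw [← map_mul, Ideal.Quotient.eq, mem_mI]
    show w ((g * h) • π / π - (g • π / π) * (h • π / π)) < 1
    have e1 : (g * h) • π / π = (g • π / π) * (g • (h • π / π)) := by
      rw [mul_smul, smul_div₀']
      have h0 : g • π ≠ 0 := by
        rw [smul_ne_zero_iff_ne]
        exact hB.pi_ne
      have h1 := hB.pi_ne
      field_simp
    rw [e1, ← mul_sub, map_mul, val_ratio hB, one_mul]
    obtain ⟨y, hy, hxy⟩ := hB.res (h • π / π) (val_ratio hB h).le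
    have e2 : g • (h • π / π) - h • π / π = g • (h • π / π - y) - (h • π / π - y) := by
      rw [smul_sub, hy g]
      ring
    rw [e2]
    apply w.map_sub_lt _ hxy
    rw [hB.inv]
    exact hxy

end

theorem st_TAME : ST_TAME := by
  intro Ω P _ _ _ _ _ w π hB p hp hwp
  refine ⟨isPGroup_Rk hB hp hwp, ?_⟩
  have hprime : (mI w).IsPrime := mI_prime
  have hdom : IsDomain (w.integer ⧸ mI w) := Ideal.Quotient.isDomain (mI w)
  let θ : P →* (w.integer ⧸ mI w)ˣ := (th hB).toHomUnits
  have hker : θ.ker = Rk hB 1 := by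
    ext g
    rw [MonoidHom.mem_ker, mem_Rk_iff, Units.ext_iff]
    show Ideal.Quotient.mk _ (rt hB g) = 1 ↔ _
    rw [← map_one (Ideal.Quotient.mk (mI w)), Ideal.Quotient.eq, mem_mI]
    show w (g • π / π - 1) < 1 ↔ _
    rw [lt_one_iff]
    norm_num
  have hfin : Finite P := inferInstance
  let f : (P ⧸ θ.ker) →* (w.integer ⧸ mI w) :=
    (Units.coeHom _).comp (QuotientGroup.kerLift θ)
  have hf : Function.Injective f := by
    intro a b hab
    apply QuotientGroup.kerLift_injective θ
    exact Units.ext hab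
  have hcyc : IsCyclic (P ⧸ θ.ker) := isCyclic_of_injective_ringHom f hf
  rw [← hker]
  refine ⟨?_, ?_⟩
  · intro hdvd
    rw [Subgroup.index_eq_card] at hdvd
    have : Fact p.Prime := ⟨hp⟩
    obtain ⟨x, hx⟩ := exists_prime_orderOf_dvd_card' p hdvd
    have hx1 : x ≠ 1 := by
      intro h
      rw [h, orderOf_one] at hx
      exact hp.one_lt.ne hx
    have hxp : f x ^ p = 1 := by
      rw [← map_pow, ← hx, pow_orderOf_eq_one, map_one]
    have hp0 : ((p : ℕ) : w.integer ⧸ mI w) = 0 := by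
      have h1 : ((p : ℕ) : w.integer ⧸ mI w) = Ideal.Quotient.mk (mI w) ((p : ℕ) : w.integer) := by
        rw [map_natCast]
      rw [h1, Ideal.Quotient.eq_zero_iff_mem, mem_mI]
      push_cast
      exact hwp
    have hchar : CharP (w.integer ⧸ mI w) p := (CharP.charP_iff_prime_eq_zero hp).2 hp0
    have h2 : (f x - 1) ^ p = 0 := by
      rw [sub_pow_char, hxp, one_pow, sub_self]
    have h3 : f x - 1 = 0 := pow_eq_zero_iff (hp.ne_zero) |>.1 h2
    apply hx1
    apply hf
    rw [map_one]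
    exact sub_eq_zero.1 h3
  · obtain ⟨c, hc⟩ := IsCyclic.exists_monoid_generator (α := P ⧸ θ.ker)
    obtain ⟨t, rfl⟩ := QuotientGroup.mk_surjective c
    refine ⟨t, fun g => ?_⟩
    obtain ⟨j, hj⟩ := hc ((g : P ⧸ θ.ker)⁻¹)
    refine ⟨j, ?_⟩
    rw [← QuotientGroup.eq_one_iff, QuotientGroup.mk_mul, QuotientGroup.mk_pow]
    simp only at hj
    rw [hj, inv_mul_cancel]

end Pool.Agent.Helper2.PQM
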